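import Mathlib

/-!
# 2-adic integrality of products of hypergeometric series: sequences with `4^j`-divisible differences
-/

namespace Pool.Agent.X13.Hyp2

open Finset

/-- rationals with odd denominator -/
def Z2 : Subring ℚ where
  carrier := {x | Odd x.den}
  mul_mem' := by
    intro a b ha hb
    exact Odd.of_dvd_nat (Odd.mul ha hb) (Rat.mul_den_dvd a b)
  one_mem' := by simp
  add_mem' := by
    intro a b ha hb
    exact Odd.of_dvd_nat (Odd.mul ha hb) (Rat.add_den_dvd a b)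
  zero_mem' := by simp
  neg_mem' := by
    intro a ha
    simpa using ha

theorem mem_Z2 {x : ℚ} : x ∈ Z2 ↔ Odd x.den := Iff.rfl

theorem int_mem (z : ℤ) : (z : ℚ) ∈ Z2 := by rw [mem_Z2]; simp

theorem nat_mem (n : ℕ) : (n : ℚ) ∈ Z2 := by rw [mem_Z2]; simp

/-- inverse of an odd integer -/
theorem inv_odd_mem {z : ℤ} (hz : Odd z) : ((z : ℚ))⁻¹ ∈ Z2 := by
  rw [mem_Z2]
  have h0 : z ≠ 0 := by rintro rfl; simp at hz
  have h1 : ((z : ℚ))⁻¹.den = z.natAbs := by
    rw [Rat.inv_intCast_den]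
    simp [h0]
  rw [h1]
  exact Int.natAbs_odd.mpr hz

theorem inv_odd_mem_nat {n : ℕ} (hn : Odd n) : ((n : ℚ))⁻¹ ∈ Z2 := by
  have := inv_odd_mem (z := (n : ℤ)) (by exact_mod_cast hn)
  simpa using this

theorem odd_ne_zero {z : ℤ} (hz : Odd z) : (z : ℚ) ≠ 0 := by
  intro h
  have : z = 0 := by exact_mod_cast h
  rw [this] at hz
  simp at hz

/-! ### the class `InA` -/

/-- all differences of order `j ≤ J` are divisible by `4^j` -/
def InA : ℕ → (ℕ → ℚ) → Prop
  | 0, f => ∀ n, f n ∈ Z2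
  | J + 1, f => (∀ n, f n ∈ Z2) ∧ InA J (fun n => (f (n + 1) - f n) / 4)

theorem InA.val : ∀ {J : ℕ} {f : ℕ → ℚ}, InA J f → ∀ n, f n ∈ Z2
  | 0, _, h => h
  | _ + 1, _, h => h.1

theorem InA.mono : ∀ {J : ℕ} {f : ℕ → ℚ}, InA (J + 1) f → InA J f
  | 0, _, h => h.1
  | _ + 1, _, h => ⟨h.1, h.2.mono⟩

theorem InA.shift : ∀ {J : ℕ} {f : ℕ → ℚ}, InA J f → InA J (fun n => f (n + 1))
  | 0, _, h => fun n => h (n + 1)
  | _ + 1, _, h => ⟨fun n => h.1 (n + 1), h.2.shift⟩

theorem InA.add : ∀ {J : ℕ} {f g : ℕ → ℚ}, InA J f → InA J g → InA J (fun n => f n + g n)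
  | 0, _, _, h, h' => fun n => Z2.add_mem (h n) (h' n)
  | J + 1, f, g, h, h' => ⟨fun n => Z2.add_mem (h.1 n) (h'.1 n), by
      have := h.2.add h'.2
      have e : (fun n => (f (n + 1) - f n) / 4 + (g (n + 1) - g n) / 4)
          = fun n => (f (n + 1) + g (n + 1) - (f n + g n)) / 4 := by
        funext n; ring
      rwa [e] at this⟩

theorem InA.mul : ∀ {J : ℕ} {f g : ℕ → ℚ}, InA J f → InA J g → InA J (fun n => f n * g n)
  | 0, _, _, h, h' => fun n => Z2.mul_mem (h n) (h' n)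
  | J + 1, f, g, h, h' => ⟨fun n => Z2.mul_mem (h.1 n) (h'.1 n), by
      have h1 := (h.2.mul h'.mono.shift).add (h.mono.mul h'.2)
      have e : (fun n => (f (n + 1) - f n) / 4 * g (n + 1) + f n * ((g (n + 1) - g n) / 4))
          = fun n => (f (n + 1) * g (n + 1) - f n * g n) / 4 := by
        funext n; ring
      rwa [e] at h1⟩

theorem InA.const : ∀ {J : ℕ} {c : ℚ}, c ∈ Z2 → InA J (fun _ => c)
  | 0, _, h => fun _ => h
  | J + 1, c, h => ⟨fun _ => h, by
      have : (fun _ : ℕ => (c - c) / 4) = fun _ => (0 : ℚ) := by funext; simp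
      show InA J (fun _ => (c - c) / 4)
      rw [this]
      exact InA.const Z2.zero_mem⟩

theorem InA.linear {J : ℕ} {c d : ℚ} (hc : c ∈ Z2) (hd : d ∈ Z2) :
    InA J (fun n => 4 * c * n + d) := by
  have hv : ∀ n : ℕ, 4 * c * n + d ∈ Z2 := fun n =>
    Z2.add_mem (Z2.mul_mem (Z2.mul_mem (by simp [mem_Z2]) hc) (nat_mem n)) hd
  cases J with
  | zero => exact hv
  | succ J =>
    refine ⟨hv, ?_⟩
    have : (fun n : ℕ => (4 * c * ((n + 1 : ℕ) : ℚ) + d - (4 * c * (n : ℚ) + d)) / 4)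
        = fun _ => c := by
      funext n; push_cast; ring
    rw [this]
    exact InA.const hc

theorem InA.inv : ∀ {J : ℕ} {g : ℕ → ℚ}, InA J g → (∀ n, g n ≠ 0) → (∀ n, (g n)⁻¹ ∈ Z2) →
    InA J (fun n => (g n)⁻¹)
  | 0, _, _, _, h => h
  | J + 1, g, h, h0, hi => ⟨hi, by
      have ih := InA.inv h.mono h0 hi
      have h1 := ((InA.const (J := J) (c := -1) (Z2.neg_mem Z2.one_mem)).mul h.2).mul
        (ih.mul ih.shift)
      have e : (fun n => -1 * ((g (n + 1) - g n) / 4) * ((g n)⁻¹ * (g (n + 1))⁻¹))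
          = fun n => ((g (n + 1))⁻¹ - (g n)⁻¹) / 4 := by
        funext n
        have a := h0 n
        have b := h0 (n + 1)
        field_simp
        ring
      rwa [e] at h1⟩

theorem InA.recur : ∀ {J : ℕ} {f σ : ℕ → ℚ}, InA J σ → f 0 ∈ Z2 →
    (∀ n, f (n + 1) = f n * (1 + 4 * σ n)) → InA J f := by
  intro J f σ hσ h0 hrec
  have hv : ∀ n, f n ∈ Z2 := by
    intro n
    induction n with
    | zero => exact h0
    | succ n ih =>
      rw [hrec]
      exact Z2.mul_mem ih (Z2.add_mem Z2.one_mem (Z2.mul_mem (by simp [mem_Z2]) (hσ.val n)))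
  induction J with
  | zero => exact hv
  | succ J ih =>
    refine ⟨hv, ?_⟩
    have h1 := (ih hσ.mono).mul hσ.mono
    have e : (fun n => f n * σ n) = fun n => (f (n + 1) - f n) / 4 := by
      funext n; rw [hrec]; ring
    rwa [e] at h1

theorem InA.fwd : ∀ {J : ℕ} {f : ℕ → ℚ}, InA J f → ∀ j ≤ J, ∀ n,
    ((fwdDiff 1)^[j] f) n / 4 ^ j ∈ Z2
  | 0, f, h => by
      intro j hj n
      have : j = 0 := by omega
      subst this
      simpa using h n
  | J + 1, f, h => by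
      intro j hj n
      cases j with
      | zero => simpa using h.1 n
      | succ j =>
        have ih := h.2.fwd j (by omega) n
        rw [Function.iterate_succ_apply]
        have e : fwdDiff 1 f = (4 : ℚ) • (fun n => (f (n + 1) - f n) / 4) := by
          funext n
          simp only [fwdDiff, Pi.smul_apply, smul_eq_mul]
          ring
        rw [e, fwdDiff_iter_const_smul, Pi.smul_apply, smul_eq_mul, pow_succ]
        have e2 : (4 : ℚ) * ((fwdDiff 1)^[j] (fun n => (f (n + 1) - f n) / 4)) n / (4 ^ j * 4)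
            = ((fwdDiff 1)^[j] (fun n => (f (n + 1) - f n) / 4)) n / 4 ^ j := by
          field_simp
        rw [e2]
        exact ih

/-! ### integral polynomials in `2k` -/

/-- `f(k) = q(2k)` for all `k ≤ N`, with an integral polynomial `q` -/
def Pol (N : ℕ) (f : ℕ → ℚ) : Prop :=
  ∃ q : Polynomial Z2, ∀ k ≤ N, f k = q.eval₂ Z2.subtype (2 * (k : ℚ))

theorem Pol.congr {N : ℕ} {f g : ℕ → ℚ} (h : Pol N f) (hfg : ∀ k ≤ N, g k = f k) : Pol N g := by
  obtain ⟨q, hq⟩ := h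
  exact ⟨q, fun k hk => (hfg k hk).trans (hq k hk)⟩

theorem Pol.mul {N : ℕ} {f g : ℕ → ℚ} (h : Pol N f) (h' : Pol N g) :
    Pol N (fun n => f n * g n) := by
  obtain ⟨q, hq⟩ := h
  obtain ⟨r, hr⟩ := h'
  refine ⟨q * r, fun k hk => ?_⟩
  show f k * g k = _
  rw [Polynomial.eval₂_mul, hq k hk, hr k hk]

theorem Pol.const {N : ℕ} {c : ℚ} (hc : c ∈ Z2) : Pol N (fun _ => c) :=
  ⟨Polynomial.C ⟨c, hc⟩, fun k _ => by rw [Polynomial.eval₂_C]; rfl⟩

/-- `∏_{i<j} (X - 2i)` -/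
noncomputable def stp (j : ℕ) : Polynomial Z2 :=
  ∏ i ∈ range j, (Polynomial.X - Polynomial.C ⟨2 * (i : ℚ), by
    have := nat_mem (2 * i); push_cast at this; exact this⟩)

theorem stp_eval (j : ℕ) (x : ℚ) :
    (stp j).eval₂ Z2.subtype x = ∏ i ∈ range j, (x - 2 * (i : ℚ)) := by
  rw [stp, Polynomial.eval₂_finsetProd]
  refine prod_congr rfl fun i _ => ?_
  rw [Polynomial.eval₂_sub, Polynomial.eval₂_X, Polynomial.eval₂_C]
  rfl

theorem two_pow_div_factorial_mem (M : ℕ) : (2 : ℚ) ^ M / ((M + 1).factorial : ℚ) ∈ Z2 := by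
  obtain ⟨k, m, hm, hk⟩ := Nat.exists_eq_two_pow_mul_odd (Nat.factorial_ne_zero (M + 1))
  have hkM : k ≤ M := by
    have h1 := Nat.emultiplicity_two_factorial_lt (n := M + 1) (by omega)
    have h2 : (k : ℕ∞) ≤ emultiplicity 2 (M + 1).factorial := by
      apply le_emultiplicity_of_pow_dvd
      rw [hk]
      exact dvd_mul_right _ _
    have h3 : (k : ℕ∞) < ((M + 1 : ℕ) : ℕ∞) := lt_of_le_of_lt h2 h1
    have : k < M + 1 := by exact_mod_cast h3
    omega
  rw [hk]
  have hm0 : (m : ℚ) ≠ 0 := by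
    have : m ≠ 0 := by rintro rfl; simp at hm
    exact_mod_cast this
  have e : (2 : ℚ) ^ M / ((2 ^ k * m : ℕ) : ℚ) = ((2 ^ (M - k) : ℕ) : ℚ) * (m : ℚ)⁻¹ := by
    push_cast
    obtain ⟨t, rfl⟩ := Nat.exists_eq_add_of_le hkM
    rw [Nat.add_sub_cancel_left, pow_add]
    field_simp
  rw [e]
  exact Z2.mul_mem (nat_mem _) (inv_odd_mem_nat hm)

theorem two_pow_div_factorial_mem' (j : ℕ) : (2 : ℚ) ^ j / (j.factorial : ℚ) ∈ Z2 := by
  cases j with
  | zero => simpa using Z2.one_mem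
  | succ j =>
    have := Z2.mul_mem (by simp [mem_Z2] : (2 : ℚ) ∈ Z2) (two_pow_div_factorial_mem j)
    rw [pow_succ]
    have e : (2 : ℚ) * (2 ^ j / ((j + 1).factorial : ℚ)) = 2 ^ j * 2 / ((j + 1).factorial : ℚ) := by
      ring
    rwa [e] at this

theorem choose_eq (k j : ℕ) : (4 : ℚ) ^ j * (k.choose j : ℚ)
    = (2 ^ j / (j.factorial : ℚ)) * ∏ i ∈ range j, (2 * (k : ℚ) - 2 * (i : ℚ)) := by
  have h1 : ∏ i ∈ range j, (2 * (k : ℚ) - 2 * (i : ℚ)) = 2 ^ j * ∏ i ∈ range j, ((k : ℚ) - i) := by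
    rw [← card_range j, ← prod_const, card_range, ← prod_mul_distrib]
    exact prod_congr rfl fun i _ => by ring
  have h2 : ∏ i ∈ range j, ((k : ℚ) - i) = (j.factorial : ℚ) * (k.choose j : ℚ) := by
    have h3 : ((k.descFactorial j : ℕ) : ℚ) = ∏ i ∈ range j, ((k : ℚ) - i) := by
      rcases Nat.lt_or_ge k j with h | h
      · rw [Nat.descFactorial_eq_zero_iff_lt.mpr h]
        symm
        push_cast
        exact prod_eq_zero (mem_range.mpr h) (by ring)
      · rw [Nat.descFactorial_eq_prod_range]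
        push_cast
        refine prod_congr rfl fun i hi => ?_
        rw [mem_range] at hi
        rw [Nat.cast_sub (by omega)]
    rw [← h3, Nat.descFactorial_eq_factorial_mul_choose]
    push_cast; ring
  rw [h1, h2]
  have hj : (j.factorial : ℚ) ≠ 0 := by exact_mod_cast Nat.factorial_ne_zero j
  field_simp
  rw [← pow_mul, mul_comm j 2, pow_mul]
  norm_num
  ring

theorem InA.pol {N : ℕ} {f : ℕ → ℚ} (h : InA N f) : Pol N f := by
  have hd := h.fwd
  have hmem : ∀ j : ℕ, j ≤ N → ((fwdDiff 1)^[j] f) 0 / 4 ^ j * (2 ^ j / (j.factorial : ℚ)) ∈ Z2 :=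
    fun j hj => Z2.mul_mem (hd j hj 0) (two_pow_div_factorial_mem' j)
  classical
  refine ⟨∑ j ∈ range (N + 1), (if hj : j ≤ N then Polynomial.C ⟨_, hmem j hj⟩ else 0) * stp j, ?_⟩
  intro k hk
  rw [Polynomial.eval₂_finsetSum]
  have h1 := shift_eq_sum_fwdDiff_iter (1 : ℕ) f k 0
  simp only [smul_eq_mul, mul_one, zero_add] at h1
  rw [h1, ← sum_subset (range_subset_range.mpr (show k + 1 ≤ N + 1 by omega))]
  · refine sum_congr rfl fun j hj => ?_
    rw [mem_range] at hj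
    rw [dif_pos (by omega), Polynomial.eval₂_mul, Polynomial.eval₂_C, stp_eval]
    simp only [Subring.subtype_apply, nsmul_eq_mul]
    have h4 : (4 : ℚ) ^ j ≠ 0 := by positivity
    have h2 := choose_eq k j
    calc (k.choose j : ℚ) * ((fwdDiff 1)^[j] f) 0
        = (((fwdDiff 1)^[j] f) 0 / 4 ^ j) * (4 ^ j * (k.choose j : ℚ)) := by field_simp
      _ = _ := by rw [h2]; ring
  · intro j hj1 hj2
    rw [mem_range] at hj1
    rw [mem_range, not_lt] at hj2
    rw [Polynomial.eval₂_mul, stp_eval]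
    have : ∏ i ∈ range j, (2 * (k : ℚ) - 2 * (i : ℚ)) = 0 :=
      prod_eq_zero (mem_range.mpr (show k < j by omega)) (by ring)
    rw [this, mul_zero]

/-- `1/(2k+c)` with `c` odd -/
theorem Pol.invLinear (N : ℕ) (c : ℤ) (hc : Odd c) : Pol N (fun k => (2 * (k : ℚ) + c)⁻¹) := by
  have hodd : ∀ j : ℕ, Odd (c + 2 * (j : ℤ)) := fun j => by
    obtain ⟨t, rfl⟩ := hc
    exact ⟨t + j, by ring⟩
  have hprododd : ∀ J : ℕ, Odd (∏ i ∈ range J, (c + 2 * (i : ℤ))) := by
    intro J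
    induction J with
    | zero => simp
    | succ J ih => rw [prod_range_succ]; exact ih.mul (hodd J)
  have hmem : ∀ j : ℕ, (-1) ^ j * (((∏ i ∈ range (j + 1), (c + 2 * (i : ℤ)) : ℤ) : ℚ))⁻¹ ∈ Z2 :=
    fun j => Z2.mul_mem (by simpa using int_mem ((-1) ^ j)) (inv_odd_mem (hprododd _))
  refine ⟨∑ j ∈ range (N + 1), Polynomial.C ⟨_, hmem j⟩ * stp j, ?_⟩
  intro k hk
  rw [Polynomial.eval₂_finsetSum]
  have hx : (2 * (k : ℚ) + c) ≠ 0 := by
    have := odd_ne_zero (hodd k)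
    push_cast at this
    rwa [add_comm]
  have key : ∀ J : ℕ, (2 * (k : ℚ) + c)⁻¹ = (∑ j ∈ range J, (-1) ^ j *
      (((∏ i ∈ range (j + 1), (c + 2 * (i : ℤ)) : ℤ) : ℚ))⁻¹ *
        ∏ i ∈ range j, (2 * (k : ℚ) - 2 * (i : ℚ)))
      + (-1) ^ J * (((∏ i ∈ range J, (c + 2 * (i : ℤ)) : ℤ) : ℚ))⁻¹ *
        (∏ i ∈ range J, (2 * (k : ℚ) - 2 * (i : ℚ))) * (2 * (k : ℚ) + c)⁻¹ := by
    intro J
    induction J with
    | zero => simp
    | succ J ih =>
      rw [sum_range_succ]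
      conv_lhs => rw [ih]
      rw [add_assoc]
      congr 1
      rw [prod_range_succ _ J, prod_range_succ (fun i => (2 * (k : ℚ) - 2 * (i : ℚ))) J]
      have h1 : (((∏ i ∈ range J, (c + 2 * (i : ℤ)) : ℤ) : ℚ)) ≠ 0 := odd_ne_zero (hprododd J)
      have h2 : ((c + 2 * (J : ℤ) : ℤ) : ℚ) ≠ 0 := odd_ne_zero (hodd J)
      rw [Int.cast_mul, mul_inv]
      set A := ((∏ i ∈ range J, (c + 2 * (i : ℤ)) : ℤ) : ℚ)
      set B := ∏ i ∈ range J, (2 * (k : ℚ) - 2 * (i : ℚ))
      have h3 : ((c + 2 * (J : ℤ) : ℤ) : ℚ) = c + 2 * J := by push_cast; ring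
      rw [h3] at h2 ⊢
      rw [pow_succ]
      field_simp
      ring
  show (2 * (k : ℚ) + c)⁻¹ = _
  rw [key (N + 1)]
  have hz : ∏ i ∈ range (N + 1), (2 * (k : ℚ) - 2 * (i : ℚ)) = 0 :=
    prod_eq_zero (mem_range.mpr (show k < N + 1 by omega)) (by ring)
  rw [hz, mul_zero, zero_mul, add_zero]
  refine sum_congr rfl fun j _ => ?_
  rw [Polynomial.eval₂_mul, Polynomial.eval₂_C, stp_eval]
  rfl

/-! ### the functional -/

/-- `∑_{x ≡ ε (2)} binom(M,x) p(x)` -/
def S (M ε : ℕ) (p : ℕ → ℚ) : ℚ :=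
  ∑ x ∈ range (M + 1), if x % 2 = ε then (M.choose x : ℚ) * p x else 0

theorem S_one (M ε : ℕ) (hε : ε < 2) : S (M + 1) ε (fun _ => 1) = 2 ^ M := by
  have h1 : S (M + 1) ε (fun _ => 1)
      = ∑ x ∈ range (M + 1), (M.choose x : ℚ) := by
    unfold S
    rw [sum_range_succ']
    simp only [mul_one]
    have h2 : ∀ x : ℕ, (if (x + 1) % 2 = ε then (((M + 1).choose (x + 1) : ℕ) : ℚ) else 0)
        = (if (x + 1) % 2 = ε then (M.choose x : ℚ) else 0)
          + (if (x + 1) % 2 = ε then (M.choose (x + 1) : ℚ) else 0) := by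
      intro x
      split_ifs
      · rw [Nat.choose_succ_succ]; push_cast; ring
      · simp
    simp only [h2]
    rw [sum_add_distrib, add_assoc]
    have h3 : (∑ x ∈ range (M + 1), if (x + 1) % 2 = ε then (M.choose (x + 1) : ℚ) else 0)
        + (if 0 % 2 = ε then (((M + 1).choose 0 : ℕ) : ℚ) else 0)
        = ∑ x ∈ range (M + 1), if x % 2 = ε then (M.choose x : ℚ) else 0 := by
      have h4 := sum_range_succ' (fun x => if x % 2 = ε then (M.choose x : ℚ) else 0) (M + 1)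
      have h5 := sum_range_succ (fun x => if x % 2 = ε then (M.choose x : ℚ) else 0) (M + 1)
      rw [Nat.choose_succ_self] at h5
      simp only [Nat.choose_zero_right, Nat.cast_zero, ite_self, add_zero] at h4 h5 ⊢
      rw [← h4, h5]
    rw [h3, ← sum_add_distrib]
    refine sum_congr rfl fun x _ => ?_
    rcases Nat.mod_two_eq_zero_or_one x with h | h
    · have h' : (x + 1) % 2 = 1 := by omega
      rw [h, h']
      interval_cases ε <;> simp
    · have h' : (x + 1) % 2 = 0 := by omega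
      rw [h, h']
      interval_cases ε <;> simp
  rw [h1]
  have := Nat.sum_range_choose M
  exact_mod_cast this

theorem S_X (M ε : ℕ) (hε : ε < 2) (p : ℕ → ℚ) :
    S (M + 1) ε (fun x => (x : ℚ) * p x) = (M + 1) * S M (1 - ε) (fun x => p (x + 1)) := by
  unfold S
  rw [sum_range_succ', mul_sum]
  simp only [Nat.cast_zero, zero_mul, mul_zero, ite_self, add_zero]
  refine sum_congr rfl fun x _ => ?_
  have h1 : ((M + 1).choose (x + 1) : ℚ) * ((x + 1 : ℕ) : ℚ) = (M + 1) * (M.choose x : ℚ) := by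
    have := Nat.add_one_mul_choose_eq M x
    have h2 : (((M + 1) * M.choose x : ℕ) : ℚ) = (((M + 1).choose (x + 1) * (x + 1) : ℕ) : ℚ) := by
      rw [this]
    push_cast at h2 ⊢
    linarith
  have hiff : (x + 1) % 2 = ε ↔ x % 2 = 1 - ε := by omega
  by_cases h : (x + 1) % 2 = ε
  · rw [if_pos h, if_pos (hiff.mp h), ← mul_assoc, h1]; ring
  · rw [if_neg h, if_neg (fun h' => h (hiff.mpr h')), mul_zero]

theorem S_add (M ε : ℕ) (p q : ℕ → ℚ) : S M ε (fun x => p x + q x) = S M ε p + S M ε q := by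
  unfold S
  rw [← sum_add_distrib]
  refine sum_congr rfl fun x _ => ?_
  split_ifs <;> ring

theorem S_const (M ε : ℕ) (c : ℚ) : S M ε (fun _ => c) = c * S M ε (fun _ => 1) := by
  unfold S
  rw [mul_sum]
  refine sum_congr rfl fun x _ => ?_
  split_ifs <;> ring

/-- the functional takes integral polynomials into `M! Z_(2)` -/
theorem S_mem (M : ℕ) : ∀ ε : ℕ, ε < 2 → ∀ q : Polynomial Z2,
    S M ε (fun x => q.eval₂ Z2.subtype (x : ℚ)) / (M.factorial : ℚ) ∈ Z2 := by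
  induction M with
  | zero =>
    intro ε hε q
    unfold S
    simp only [zero_add, range_one, sum_singleton, Nat.choose_self, Nat.cast_one, one_mul,
      Nat.factorial_zero, div_one, Nat.cast_zero]
    split_ifs
    · rw [Polynomial.eval₂_at_zero]
      exact (q.coeff 0).2
    · exact Z2.zero_mem
  | succ M ih =>
    intro ε hε q
    have hq : ∀ x : ℕ, q.eval₂ Z2.subtype (x : ℚ)
        = (x : ℚ) * (q.divX.eval₂ Z2.subtype (x : ℚ)) + ((q.coeff 0 : Z2) : ℚ) := by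
      intro x
      conv_lhs => rw [← Polynomial.divX_mul_X_add q]
      rw [Polynomial.eval₂_add, Polynomial.eval₂_mul, Polynomial.eval₂_X, Polynomial.eval₂_C]
      simp only [Subring.subtype_apply]
      ring
    simp only [hq]
    rw [S_add, S_X M ε hε, S_const, S_one M ε hε]
    have h1 := ih (1 - ε) (by omega) (q.divX.comp (Polynomial.X + 1))
    have h2 : ∀ x : ℕ, (q.divX.comp (Polynomial.X + 1)).eval₂ Z2.subtype (x : ℚ)
        = q.divX.eval₂ Z2.subtype ((x + 1 : ℕ) : ℚ) := by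
      intro x
      rw [Polynomial.eval₂_comp, Polynomial.eval₂_add, Polynomial.eval₂_X, Polynomial.eval₂_one]
      push_cast; rfl
    simp only [h2] at h1
    have hM : ((M.factorial : ℕ) : ℚ) ≠ 0 := by exact_mod_cast Nat.factorial_ne_zero M
    have hM1 : ((M : ℚ) + 1) ≠ 0 := by positivity
    have e : (((M : ℚ) + 1) * S M (1 - ε) (fun x => q.divX.eval₂ Z2.subtype ((x + 1 : ℕ) : ℚ))
        + ((q.coeff 0 : Z2) : ℚ) * 2 ^ M) / ((M + 1).factorial : ℚ)
        = S M (1 - ε) (fun x => q.divX.eval₂ Z2.subtype ((x + 1 : ℕ) : ℚ)) / (M.factorial : ℚ)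
          + ((q.coeff 0 : Z2) : ℚ) * (2 ^ M / ((M + 1).factorial : ℚ)) := by
      rw [Nat.factorial_succ]
      push_cast
      field_simp
    rw [e]
    exact Z2.add_mem h1 (Z2.mul_mem (q.coeff 0).2 (two_pow_div_factorial_mem M))

theorem sum_even (n : ℕ) (g : ℕ → ℚ) :
    ∑ x ∈ range (2 * n), (if x % 2 = 0 then g x else 0) = ∑ k ∈ range n, g (2 * k) := by
  induction n with
  | zero => simp
  | succ n ih =>
    rw [show 2 * (n + 1) = 2 * n + 1 + 1 by ring, sum_range_succ, sum_range_succ, ih,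
      sum_range_succ, if_pos (by omega), if_neg (by omega), add_zero]

theorem S_zero (m δ : ℕ) (hδ : δ < 2) (p : ℕ → ℚ) :
    S (2 * m + δ) 0 p = ∑ k ∈ range (m + 1), ((2 * m + δ).choose (2 * k) : ℚ) * p (2 * k) := by
  unfold S
  interval_cases δ
  · rw [add_zero, sum_range_succ, sum_even, if_pos (by omega), ← sum_range_succ
      (fun k => ((2 * m).choose (2 * k) : ℚ) * p (2 * k))]
  · rw [show 2 * m + 1 + 1 = 2 * (m + 1) by ring, sum_even]

/-- the main criterion -/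
theorem conv_mem (m δ : ℕ) (hδ : δ < 2) (Φ : ℕ → ℚ) (hΦ : Pol m Φ) :
    (∑ k ∈ range (m + 1), ((2 * m + δ).choose (2 * k) : ℚ) * Φ k) / ((2 * m + δ).factorial : ℚ)
      ∈ Z2 := by
  obtain ⟨q, hq⟩ := hΦ
  have h1 := S_mem (2 * m + δ) 0 (by norm_num) q
  rw [S_zero m δ hδ] at h1
  have h2 : ∑ k ∈ range (m + 1), ((2 * m + δ).choose (2 * k) : ℚ) * Φ k
      = ∑ k ∈ range (m + 1), ((2 * m + δ).choose (2 * k) : ℚ) *
        q.eval₂ Z2.subtype ((2 * k : ℕ) : ℚ) := by
    refine sum_congr rfl fun k hk => ?_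
    rw [mem_range] at hk
    rw [hq k (by omega)]
    push_cast; rfl
  rw [h2]
  exact h1

end Pool.Agent.X13.Hyp2
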