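import Pool.Agent.X13.Hyp2.Core

/-!
# Products of the hypergeometric series have 2-integral coefficients
-/

namespace Pool.Agent.X13.Hyp2

open Finset

/-- `∏_{j<n} (4j + A)` -/
def hg (A : ℤ) (n : ℕ) : ℚ := ∏ j ∈ range n, (4 * (j : ℚ) + A)

/-- `∏_{j<n} (2j + B)` -/
def og (B : ℤ) (n : ℕ) : ℚ := ∏ j ∈ range n, (2 * (j : ℚ) + B)

theorem og_ne_zero {B : ℤ} (hB : Odd B) (n : ℕ) : og B n ≠ 0 := by
  unfold og
  rw [prod_ne_zero_iff]
  intro j _
  have : Odd (2 * (j : ℤ) + B) := by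
    obtain ⟨t, rfl⟩ := hB
    exact ⟨j + t, by ring⟩
  have := odd_ne_zero this
  push_cast at this
  exact this

theorem hg_mem (A : ℤ) (n : ℕ) : hg A n ∈ Z2 := by
  unfold hg
  refine Z2.prod_mem fun j _ => ?_
  have := int_mem (4 * (j : ℤ) + A)
  push_cast at this
  exact this

theorem og_step (B : ℤ) (n : ℕ) : og (B + 2) n * B = og B n * (2 * (n : ℚ) + B) := by
  have h1 : og B (n + 1) = og B n * (2 * (n : ℚ) + B) := by unfold og; rw [prod_range_succ]
  have h2 : og B (n + 1) = og (B + 2) n * B := by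
    unfold og
    rw [prod_range_succ']
    congr 1
    · refine prod_congr rfl fun j _ => ?_
      push_cast; ring
    · simp
  rw [← h1, h2]

theorem og_ratio_step {b : ℤ} (hb : Odd b) (f n : ℕ) :
    og b n / og (b + 2 * ((f + 1 : ℕ) : ℤ)) n
      = og b n / og (b + 2 * (f : ℤ)) n * ((b + 2 * (f : ℤ) : ℤ) : ℚ)
        * (2 * (n : ℚ) + ((b + 2 * (f : ℤ) : ℤ) : ℚ))⁻¹ := by
  have hodd : Odd (b + 2 * (f : ℤ)) := by
    obtain ⟨t, rfl⟩ := hb
    exact ⟨t + f, by ring⟩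
  have hodd2 : Odd (b + 2 * (f : ℤ) + 2) := by
    obtain ⟨t, ht⟩ := hodd
    exact ⟨t + 1, by rw [ht]; ring⟩
  have h := og_step (b + 2 * (f : ℤ)) n
  have e : b + 2 * ((f + 1 : ℕ) : ℤ) = b + 2 * (f : ℤ) + 2 := by push_cast; ring
  rw [e]
  have h1 := og_ne_zero hodd n
  have h2 := og_ne_zero hodd2 n
  have h3 : (2 * (n : ℚ) + ((b + 2 * (f : ℤ) : ℤ) : ℚ)) ≠ 0 := by
    have : Odd (2 * (n : ℤ) + (b + 2 * (f : ℤ))) := by
      obtain ⟨t, ht⟩ := hodd
      exact ⟨n + t, by rw [ht]; ring⟩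
    have := odd_ne_zero this
    push_cast at this ⊢
    exact this
  rw [div_mul_eq_mul_div, ← div_eq_mul_inv, div_div, div_eq_div_iff h2 (mul_ne_zero h1 h3)]
  linear_combination (-og b n) * h

theorem pol_ratio (N : ℕ) {b : ℤ} (hb : Odd b) (f : ℕ) :
    Pol N (fun k => og b k / og (b + 2 * (f : ℤ)) k) := by
  induction f with
  | zero =>
    refine (Pol.const (N := N) Z2.one_mem).congr fun k _ => ?_
    simp only [Nat.cast_zero, mul_zero, add_zero]
    exact div_self (og_ne_zero hb k)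
  | succ f ih =>
    have hodd : Odd (b + 2 * (f : ℤ)) := by
      obtain ⟨t, rfl⟩ := hb
      exact ⟨t + f, by ring⟩
    refine ((ih.mul (Pol.const (int_mem (b + 2 * (f : ℤ))))).mul
      (Pol.invLinear N (b + 2 * (f : ℤ)) hodd)).congr fun k _ => ?_
    exact og_ratio_step hb f k

theorem pol_ratio_rev (m : ℕ) {b : ℤ} (hb : Odd b) (f : ℕ) :
    Pol m (fun k => og b (m - k) / og (b + 2 * (f : ℤ)) (m - k)) := by
  induction f with
  | zero =>
    refine (Pol.const (N := m) Z2.one_mem).congr fun k _ => ?_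
    simp only [Nat.cast_zero, mul_zero, add_zero]
    exact div_self (og_ne_zero hb _)
  | succ f ih =>
    have hodd : Odd (b + 2 * (f : ℤ)) := by
      obtain ⟨t, rfl⟩ := hb
      exact ⟨t + f, by ring⟩
    have hodd2 : Odd (-(2 * (m : ℤ) + (b + 2 * (f : ℤ)))) := by
      obtain ⟨t, ht⟩ := hodd
      exact ⟨-(m + t + 1), by rw [ht]; ring⟩
    refine ((ih.mul (Pol.const (int_mem (-(b + 2 * (f : ℤ)))))).mul
      (Pol.invLinear m _ hodd2)).congr fun k hk => ?_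
    rw [og_ratio_step hb f (m - k)]
    rw [Nat.cast_sub hk]
    have h3 : (2 * ((m : ℚ) - k) + ((b + 2 * (f : ℤ) : ℤ) : ℚ)) ≠ 0 := by
      have : Odd (2 * ((m : ℤ) - k) + (b + 2 * (f : ℤ))) := by
        obtain ⟨t, ht⟩ := hodd
        exact ⟨m - k + t, by rw [ht]; ring⟩
      have := odd_ne_zero this
      push_cast at this ⊢
      exact this
    have h4 : (2 * (k : ℚ) + ((-(2 * (m : ℤ) + (b + 2 * (f : ℤ))) : ℤ) : ℚ))
        = -(2 * ((m : ℚ) - k) + ((b + 2 * (f : ℤ) : ℤ) : ℚ)) := by push_cast; ring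
    rw [h4, inv_neg]
    push_cast
    ring

/-- the main sequence -/
theorem pol_hg (m : ℕ) (A1 A2 B1 B2 : ℤ) (hB1 : Odd B1) (hB2 : Odd B2)
    (hs : (4 : ℤ) ∣ A1 + A2 + B1 + B2) (hp : (4 : ℤ) ∣ A1 * A2 - B1 * B2)
    (_hsum : (2 : ℤ) ∣ B1 + B2) :
    Pol m (fun k => hg A1 k * hg A2 k * (hg B1 (m - k) * hg B2 (m - k))) := by
  obtain ⟨s, hs⟩ := hs
  obtain ⟨p, hp⟩ := hp
  set b1 : ℤ := 4 * ((m : ℤ) - 1) + B1 with hb1
  set b2 : ℤ := 4 * ((m : ℤ) - 1) + B2 with hb2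
  have hb1o : Odd b1 := by
    obtain ⟨t, ht⟩ := hB1
    exact ⟨2 * ((m : ℤ) - 1) + t, by rw [hb1, ht]; ring⟩
  have hb2o : Odd b2 := by
    obtain ⟨t, ht⟩ := hB2
    exact ⟨2 * ((m : ℤ) - 1) + t, by rw [hb2, ht]; ring⟩
  set s' : ℤ := s + 2 * ((m : ℤ) - 1) with hs'
  set p' : ℤ := p - ((m : ℤ) - 1) * (B1 + B2) - 4 * ((m : ℤ) - 1) ^ 2 with hp'
  have e1 : A1 + A2 + b1 + b2 = 4 * s' := by rw [hb1, hb2, hs']; linarith
  have e2 : A1 * A2 - b1 * b2 = 4 * p' := by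
    rw [hb1, hb2, hp']; linear_combination hp
  have hodd : ∀ (b : ℤ), Odd b → ∀ i : ℕ, Odd (b - 4 * (i : ℤ)) := fun b hb i => by
    obtain ⟨t, rfl⟩ := hb
    exact ⟨t - 2 * i, by ring⟩
  have hne : ∀ (b : ℤ), Odd b → ∀ i : ℕ, ((b : ℚ) - 4 * i) ≠ 0 := fun b hb i => by
    have := odd_ne_zero (hodd b hb i)
    push_cast at this
    exact this
  have hlin : ∀ (b : ℤ), Odd b → InA m (fun i : ℕ => ((b : ℚ) - 4 * i)⁻¹) := by
    intro b hb
    have h1 : InA m (fun i : ℕ => 4 * (-1 : ℚ) * i + b) :=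
      InA.linear (Z2.neg_mem Z2.one_mem) (int_mem b)
    have h2 : (fun i : ℕ => 4 * (-1 : ℚ) * i + b) = fun i : ℕ => (b : ℚ) - 4 * i := by
      funext i; ring
    rw [h2] at h1
    refine h1.inv (hne b hb) fun i => ?_
    have := inv_odd_mem (hodd b hb i)
    push_cast at this
    exact this
  set σ : ℕ → ℚ := fun i => (4 * (s' : ℚ) * i + p') * (((b1 : ℚ) - 4 * i)⁻¹ * ((b2 : ℚ) - 4 * i)⁻¹)
    with hσ
  have hσA : InA m σ := (InA.linear (int_mem s') (int_mem p')).mul ((hlin b1 hb1o).mul (hlin b2 hb2o))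
  set f : ℕ → ℚ := fun k => hg B1 m * hg B2 m * ∏ i ∈ range k, (1 + 4 * σ i) with hf
  have hfA : InA m f := by
    refine InA.recur hσA ?_ ?_
    · rw [hf]
      simp only [range_zero, prod_empty, mul_one]
      exact Z2.mul_mem (hg_mem _ _) (hg_mem _ _)
    · intro n
      rw [hf]
      simp only [prod_range_succ]
      ring
  refine hfA.pol.congr fun k hk => ?_
  induction k with
  | zero => simp [hf, hg]
  | succ k ih =>
    have ih := ih (by omega)
    have e3 : f (k + 1) = f k * (1 + 4 * σ k) := by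
      rw [hf]; simp only [prod_range_succ]; ring
    rw [e3, ← ih]
    have h1 : ∀ A : ℤ, hg A (k + 1) = hg A k * (4 * (k : ℚ) + A) := fun A => by
      unfold hg; rw [prod_range_succ]
    have h2 : ∀ B b : ℤ, b = 4 * ((m : ℤ) - 1) + B →
        hg B (m - k) = hg B (m - (k + 1)) * ((b : ℚ) - 4 * k) := fun B b hb => by
      have : m - k = (m - (k + 1)) + 1 := by omega
      unfold hg
      rw [this, prod_range_succ]
      congr 1
      rw [hb, Nat.cast_sub (by omega)]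
      push_cast; ring
    rw [h1 A1, h1 A2, h2 B1 b1 hb1, h2 B2 b2 hb2, hσ]
    simp only
    have n1 := hne b1 hb1o k
    have n2 := hne b2 hb2o k
    have e1q : (A1 : ℚ) + A2 + b1 + b2 = 4 * s' := by exact_mod_cast e1
    have e2q : (A1 : ℚ) * A2 - b1 * b2 = 4 * p' := by exact_mod_cast e2
    have e4 : (1 : ℚ) + 4 * ((4 * (s' : ℚ) * k + p') * (((b1 : ℚ) - 4 * k)⁻¹ * ((b2 : ℚ) - 4 * k)⁻¹))
        = (4 * (k : ℚ) + A1) * (4 * (k : ℚ) + A2) * (((b1 : ℚ) - 4 * k)⁻¹ * ((b2 : ℚ) - 4 * k)⁻¹) := by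
      field_simp
      linear_combination (-4 * (k : ℚ)) * e1q - e2q
    rw [e4]
    field_simp

/-- coefficients of the series -/
def co (δ : ℕ) (A1 A2 : ℤ) (f n : ℕ) : ℚ :=
  hg A1 n * hg A2 n * (og (2 * (δ : ℤ) + 1) n / og (2 * (δ : ℤ) + 1 + 2 * (f : ℤ)) n)
    / ((2 * n + δ).factorial : ℚ)

theorem conv_co (δ : ℕ) (hδ : δ < 2) (A1 A2 B1 B2 : ℤ) (f c : ℕ) (hB1 : Odd B1) (hB2 : Odd B2)
    (hs : (4 : ℤ) ∣ A1 + A2 + B1 + B2) (hp : (4 : ℤ) ∣ A1 * A2 - B1 * B2) (m : ℕ) :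
    ∑ k ∈ range (m + 1), co 0 A1 A2 f k * co δ B1 B2 c (m - k) ∈ Z2 := by
  have hsum : (2 : ℤ) ∣ B1 + B2 := by
    obtain ⟨s, rfl⟩ := hB1
    obtain ⟨t, rfl⟩ := hB2
    exact ⟨s + t + 1, by ring⟩
  have hodd : Odd (2 * (δ : ℤ) + 1) := ⟨δ, by ring⟩
  have h1 := ((pol_hg m A1 A2 B1 B2 hB1 hB2 hs hp hsum).mul
    (pol_ratio m (b := 1) (by decide) f)).mul (pol_ratio_rev m hodd c)
  have h2 := conv_mem m δ hδ _ h1
  rw [sum_div] at h2
  refine (congrArg (fun x => x ∈ Z2) (sum_congr rfl fun k hk => ?_)).mp h2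
  rw [mem_range] at hk
  have hch : ((2 * m + δ).choose (2 * k) : ℚ) / ((2 * m + δ).factorial : ℚ)
      = 1 / (((2 * k).factorial : ℚ) * ((2 * (m - k) + δ).factorial : ℚ)) := by
    have := Nat.choose_mul_factorial_mul_factorial (show 2 * k ≤ 2 * m + δ by omega)
    rw [show 2 * m + δ - 2 * k = 2 * (m - k) + δ by omega] at this
    have h3 : (((2 * m + δ).choose (2 * k) * (2 * k).factorial * (2 * (m - k) + δ).factorial : ℕ) : ℚ)
        = ((2 * m + δ).factorial : ℚ) := by exact_mod_cast this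
    push_cast at h3
    rw [← h3]
    have a1 : ((2 * k).factorial : ℚ) ≠ 0 := by exact_mod_cast Nat.factorial_ne_zero _
    have a2 : ((2 * (m - k) + δ).factorial : ℚ) ≠ 0 := by exact_mod_cast Nat.factorial_ne_zero _
    have a3 : ((2 * m + δ).choose (2 * k) : ℚ) ≠ 0 := by
      exact_mod_cast (Nat.choose_pos (by omega)).ne'
    field_simp
  unfold co
  rw [mul_div_right_comm, hch]
  simp only [Nat.cast_zero, mul_zero, zero_add, add_zero]
  have a1 : ((2 * k).factorial : ℚ) ≠ 0 := by exact_mod_cast Nat.factorial_ne_zero _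
  have a2 : ((2 * (m - k) + δ).factorial : ℚ) ≠ 0 := by exact_mod_cast Nat.factorial_ne_zero _
  field_simp

theorem factorial_even (n : ℕ) : ((2 * n + 0).factorial : ℚ) = 2 ^ n * (n.factorial : ℚ) * og 1 n := by
  rw [add_zero]
  induction n with
  | zero => simp [og]
  | succ n ih =>
    have h1 : (((2 * (n + 1)).factorial : ℕ) : ℚ)
        = (2 * (n : ℚ) + 2) * (2 * (n : ℚ) + 1) * ((2 * n).factorial : ℚ) := by
      have : (2 * (n + 1)).factorial = (2 * n + 2) * ((2 * n + 1) * (2 * n).factorial) := by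
        rw [show 2 * (n + 1) = 2 * n + 1 + 1 by ring, Nat.factorial_succ, Nat.factorial_succ]
      rw [this]; push_cast; ring
    have h2 : (((n + 1).factorial : ℕ) : ℚ) = ((n : ℚ) + 1) * (n.factorial : ℚ) := by
      rw [Nat.factorial_succ]; push_cast; ring
    have h3 : og 1 (n + 1) = og 1 n * (2 * (n : ℚ) + 1) := by
      unfold og; rw [prod_range_succ]; push_cast; ring
    rw [h1, h2, h3, ih]
    ring

theorem factorial_odd (n : ℕ) : ((2 * n + 1).factorial : ℚ) = 2 ^ n * (n.factorial : ℚ) * og 3 n := by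
  induction n with
  | zero => simp [og]
  | succ n ih =>
    have h1 : (((2 * (n + 1) + 1).factorial : ℕ) : ℚ)
        = (2 * (n : ℚ) + 3) * (2 * (n : ℚ) + 2) * ((2 * n + 1).factorial : ℚ) := by
      have : (2 * (n + 1) + 1).factorial = (2 * n + 3) * ((2 * n + 2) * (2 * n + 1).factorial) := by
        rw [show 2 * (n + 1) + 1 = 2 * n + 1 + 1 + 1 by ring, Nat.factorial_succ, Nat.factorial_succ]
      rw [this]; push_cast; ring
    have h2 : (((n + 1).factorial : ℕ) : ℚ) = ((n : ℚ) + 1) * (n.factorial : ℚ) := by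
      rw [Nat.factorial_succ]; push_cast; ring
    have h3 : og 3 (n + 1) = og 3 n * (2 * (n : ℚ) + 3) := by
      unfold og; rw [prod_range_succ]; push_cast; ring
    rw [h1, h2, h3, ih]
    ring

/-- Pochhammer symbol -/
def poch (x : ℚ) (n : ℕ) : ℚ := ∏ j ∈ range n, (x + j)

theorem poch_four (A : ℤ) (x : ℚ) (hx : 4 * x = A) (n : ℕ) : 4 ^ n * poch x n = hg A n := by
  unfold poch hg
  rw [← card_range n, ← prod_const, card_range, ← prod_mul_distrib]
  exact prod_congr rfl fun j _ => by rw [← hx]; ring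

theorem poch_two (B : ℤ) (x : ℚ) (hx : 2 * x = B) (n : ℕ) : 2 ^ n * poch x n = og B n := by
  unfold poch og
  rw [← card_range n, ← prod_const, card_range, ← prod_mul_distrib]
  exact prod_congr rfl fun j _ => by rw [← hx]; ring

theorem coeff_D (d e f n : ℕ) :
    poch (1 / 4 + d) n * poch (1 / 4 + e) n / (poch (1 / 2 + f) n * (n.factorial : ℚ)) * 4 ^ n
      = co 0 (4 * d + 1) (4 * e + 1) f n := by
  have h1 := poch_four (4 * d + 1) (1 / 4 + d) (by push_cast; ring) n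
  have h2 := poch_four (4 * e + 1) (1 / 4 + e) (by push_cast; ring) n
  have h3 := poch_two (1 + 2 * (f : ℤ)) (1 / 2 + f) (by push_cast; ring) n
  have h4 := og_ne_zero (B := 1 + 2 * (f : ℤ)) ⟨f, by ring⟩ n
  have h5 := og_ne_zero (B := 1) (by decide) n
  unfold co
  rw [factorial_even]
  simp only [Nat.cast_zero, mul_zero, zero_add]
  rw [← h1, ← h2, ← h3] at *
  have h6 : (n.factorial : ℚ) ≠ 0 := by exact_mod_cast Nat.factorial_ne_zero _
  have h7 : poch (1 / 2 + (f : ℚ)) n ≠ 0 := fun h => h4 (by rw [h, mul_zero])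
  field_simp
  have : (4 : ℚ) ^ n = 2 ^ n * 2 ^ n := by rw [← mul_pow]; norm_num
  rw [this]; ring

theorem coeff_N (a b c n : ℕ) :
    poch (3 / 4 + a) n * poch (3 / 4 + b) n / (poch (3 / 2 + c) n * (n.factorial : ℚ)) * 4 ^ n
      = co 1 (4 * a + 3) (4 * b + 3) c n := by
  have h1 := poch_four (4 * a + 3) (3 / 4 + a) (by push_cast; ring) n
  have h2 := poch_four (4 * b + 3) (3 / 4 + b) (by push_cast; ring) n
  have h3 := poch_two (3 + 2 * (c : ℤ)) (3 / 2 + c) (by push_cast; ring) n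
  have h4 := og_ne_zero (B := 3 + 2 * (c : ℤ)) ⟨c + 1, by ring⟩ n
  have h5 := og_ne_zero (B := 3) (by decide) n
  unfold co
  rw [factorial_odd]
  have e3 : 2 * ((1 : ℕ) : ℤ) + 1 = 3 := by norm_num
  rw [e3]
  rw [← h1, ← h2, ← h3] at *
  have h6 : (n.factorial : ℚ) ≠ 0 := by exact_mod_cast Nat.factorial_ne_zero _
  have h7 : poch (3 / 2 + (c : ℚ)) n ≠ 0 := fun h => h4 (by rw [h, mul_zero])
  field_simp
  have : (4 : ℚ) ^ n = 2 ^ n * 2 ^ n := by rw [← mul_pow]; norm_num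
  rw [this]; ring

/-! ### power series -/

open PowerSeries in
/-- a power series with 2-integral coefficients and constant term 1 has a 2-integral inverse -/
theorem inv_mem (F : ℚ⟦X⟧) (h0 : PowerSeries.constantCoeff F = 1) (h : ∀ n, coeff n F ∈ Z2) :
    ∀ n, coeff n F⁻¹ ∈ Z2 := by
  set G : Z2⟦X⟧ := PowerSeries.mk fun n => (⟨coeff n F, h n⟩ : Z2) with hG
  have hmap : PowerSeries.map Z2.subtype G = F := by
    ext n
    rw [coeff_map, hG, coeff_mk]
    rfl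
  have hG0 : constantCoeff G = ((1 : Z2ˣ) : Z2) := by
    rw [← coeff_zero_eq_constantCoeff_apply, hG, coeff_mk]
    apply Subtype.ext
    simp only [coeff_zero_eq_constantCoeff]
    rw [h0]
    rfl
  have h1 : G * invOfUnit G 1 = 1 := mul_invOfUnit G 1 hG0
  have h2 : F * PowerSeries.map Z2.subtype (invOfUnit G 1) = 1 := by
    rw [← hmap, ← map_mul, h1, map_one]
  have h3 : F⁻¹ = PowerSeries.map Z2.subtype (invOfUnit G 1) := by
    rw [PowerSeries.inv_eq_iff_mul_eq_one (by rw [h0]; exact one_ne_zero), mul_comm]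
    exact h2
  intro n
  rw [h3, coeff_map]
  exact (coeff n (invOfUnit G 1)).2

open PowerSeries in
theorem mul_mem (F G : ℚ⟦X⟧) (h : ∀ n, coeff n F ∈ Z2) (h' : ∀ n, coeff n G ∈ Z2) :
    ∀ n, coeff n (F * G) ∈ Z2 := fun n => by
  rw [coeff_mul]
  exact Z2.sum_mem fun p _ => Z2.mul_mem (h _) (h' _)

open PowerSeries in
theorem quotient_mem (N D : ℚ⟦X⟧) (h0 : PowerSeries.constantCoeff D = 1)
    (hD : ∀ n, coeff n (D * D) ∈ Z2) (hN : ∀ n, coeff n (D * N) ∈ Z2) :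
    ∀ n, coeff n (N * D⁻¹) ∈ Z2 := by
  have h00 : constantCoeff D ≠ 0 := by rw [h0]; exact one_ne_zero
  have e : N * D⁻¹ = (D * N) * (D * D)⁻¹ := by
    have h1 : D * D⁻¹ = 1 := PowerSeries.mul_inv_cancel D h00
    have h2 : (D * D) * (D * D)⁻¹ = 1 := PowerSeries.mul_inv_cancel _ (by
      rw [map_mul, h0]; norm_num)
    calc N * D⁻¹ = N * D⁻¹ * ((D * D) * (D * D)⁻¹) := by rw [h2, mul_one]
      _ = (D * D⁻¹) * (D * N) * (D * D)⁻¹ := by ring
      _ = _ := by rw [h1, one_mul]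
  rw [e]
  exact mul_mem _ _ hN (inv_mem _ (by rw [map_mul, h0]; norm_num) hD)

open PowerSeries in
theorem coeff_conv (δ : ℕ) (A1 A2 B1 B2 : ℤ) (f c m : ℕ) :
    coeff m ((PowerSeries.mk (co 0 A1 A2 f) : ℚ⟦X⟧) * PowerSeries.mk (co δ B1 B2 c))
      = ∑ k ∈ range (m + 1), co 0 A1 A2 f k * co δ B1 B2 c (m - k) := by
  rw [coeff_mul, Finset.Nat.sum_antidiagonal_eq_sum_range_succ_mk]
  simp only [coeff_mk]

open PowerSeries in
/-- the general result -/
theorem quotient_co (a b c d e f : ℕ) (n : ℕ) :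
    coeff n ((PowerSeries.mk (co 1 (4 * a + 3) (4 * b + 3) c) : ℚ⟦X⟧)
      * (PowerSeries.mk (co 0 (4 * d + 1) (4 * e + 1) f))⁻¹) ∈ Z2 := by
  apply quotient_mem
  · rw [← coeff_zero_eq_constantCoeff_apply, coeff_mk]
    simp [co, hg, og]
  · intro m
    rw [coeff_conv]
    exact conv_co 0 (by norm_num) _ _ _ _ f f ⟨2 * d, by ring⟩ ⟨2 * e, by ring⟩
      ⟨2 * d + 2 * e + 1, by ring⟩ ⟨0, by ring⟩ m
  · intro m
    rw [coeff_conv]
    exact conv_co 1 (by norm_num) _ _ _ _ f c ⟨2 * a + 1, by ring⟩ ⟨2 * b + 1, by ring⟩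
      ⟨d + e + a + b + 2, by ring⟩ ⟨4 * d * e + d + e - 4 * a * b - 3 * a - 3 * b - 2, by ring⟩ m

end Pool.Agent.X13.Hyp2
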